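import Pool.Agent.H16.WR.Tay

/-!
# [H16 WR Col] THEOREM WR (MP_e49dc9_ag), (4): the columns of the Wronskian

`cv X y d i f` = the values at `y` of the derivatives of order `≤ i` of `f`.
`col`: `ρ` of order exactly `b` at `y`, `G₁` (`G₂`) a set of functions whose derivatives of order `≤ b` (`≤ 2 b`) span over the residue
field.  Then there are `φ l`, `l : Ix (2 b)`, of which `card (Ix b)` are of the form `ρ g`, `g ∈ G₁`, and the others in `G₂`, such that
`det (cv (φ l) p) ≠ 0`.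

PROOF.  The derivatives of order `≤ 2 b` of `ρ g` are the image of those of order `≤ b` of `g` by an injective linear map
(multiplication by the Taylor series of `ρ`).  So those of the `ρ g` span a space of dimension `card (Ix b)`; choose a basis of it and
complete it to a basis.
-/

set_option autoImplicit false

namespace Pool.Agent.H16.WR

open Pool.Agent.H54.RV Pool.Agent.H89.RS

section lin

variable {κ : Type} [Field κ]

/-- a basis with prescribed parts -/
theorem ex_basis {ι : Type} [Fintype ι] [DecidableEq ι] {A B : Set (ι → κ)} {m : ℕ}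
    (hA : Module.finrank κ (Submodule.span κ A) = m) (hB : Submodule.span κ B = ⊤) :
    ∃ (S : Finset ι) (e : ι → ι → κ), S.card = m ∧ (∀ l ∈ S, e l ∈ A) ∧ (∀ l, l ∉ S → e l ∈ B) ∧
      (Matrix.of fun p l => e l p).det ≠ 0 := by
  classical
  obtain ⟨A0, hA0, hsp, hli⟩ := exists_linearIndependent κ A
  have hli' : LinearIndepOn κ id A0 := hli
  obtain ⟨E, hE⟩ : ∃ E, E = hli'.extend (Set.subset_union_left (s := A0) (t := B)) := ⟨_, rfl⟩
  have h1 : A0 ⊆ E := by
    rw [hE]
    exact hli'.subset_extend _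
  have h2 : E ⊆ A0 ∪ B := by
    rw [hE]
    exact hli'.extend_subset _
  have h3 : LinearIndependent κ ((↑) : E → (ι → κ)) := by
    rw [hE]
    exact hli'.linearIndepOn_extend _
  have h4 : ⊤ ≤ Submodule.span κ (Set.range ((↑) : E → (ι → κ))) := by
    rw [Subtype.range_coe, ← hB, Submodule.span_le]
    have h5 := hli'.subset_span_extend (Set.subset_union_left (s := A0) (t := B))
    rw [← hE] at h5
    exact Set.subset_union_right.trans h5
  let bE : Module.Basis E κ (ι → κ) := Module.Basis.mk h3 h4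
  have hfin : Fintype E := FiniteDimensional.fintypeBasisIndex bE
  have hcard : Fintype.card E = Fintype.card ι := by
    have h5 := Module.finrank_eq_card_basis bE
    rw [Module.finrank_fintype_fun_eq_card] at h5
    exact h5.symm
  let σ : E ≃ ι := Fintype.equivOfCardEq hcard
  let e : Module.Basis ι κ (ι → κ) := bE.reindex σ
  have he : ∀ l, e l = (σ.symm l : ι → κ) := by
    intro l
    show (bE.reindex σ) l = _
    rw [Module.Basis.reindex_apply]
    exact Module.Basis.mk_apply h3 h4 _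
  refine ⟨Finset.univ.filter fun l => (σ.symm l : ι → κ) ∈ A0, fun l => e l, ?_, ?_, ?_, ?_⟩
  · -- the cardinality
    have hA0f : A0.Finite := Set.Finite.subset (Set.toFinite E) h1
    have h6 : Module.finrank κ (Submodule.span κ A0) = A0.ncard := by
      have : Fintype A0 := hA0f.fintype
      rw [finrank_span_set_eq_card hli, Set.ncard_eq_toFinset_card']
    rw [hsp, hA] at h6
    rw [h6, ← Set.ncard_coe_finset]
    refine Set.ncard_congr (fun l _ => (σ.symm l : ι → κ)) ?_ ?_ ?_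
    · intro l hl
      simpa using hl
    · intro l l' _ _ h
      exact σ.symm.injective (Subtype.ext h)
    · intro v hv
      refine ⟨σ ⟨v, h1 hv⟩, ?_, ?_⟩
      · simpa using hv
      · simp
  · intro l hl
    rw [Finset.mem_filter] at hl
    show e l ∈ A
    rw [he]
    exact hA0 hl.2
  · intro l hl
    show e l ∈ B
    rw [he]
    rcases h2 (σ.symm l).2 with h | h
    · exact (hl (Finset.mem_filter.2 ⟨Finset.mem_univ l, h⟩)).elim
    · exact h
  · have h7 := Module.Basis.isUnit_det (Pi.basisFun κ ι) e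
    rw [Module.Basis.det_apply] at h7
    have h8 : (Pi.basisFun κ ι).toMatrix e = Matrix.of fun p l => e l p := by
      ext p l
      rw [Module.Basis.toMatrix_apply, Pi.basisFun_repr, Matrix.of_apply]
    rw [h8] at h7
    exact h7.ne_zero

/-- the power series with given coefficients of order `≤ b` -/
noncomputable def pl {b : ℕ} (c : Ix b → κ) : MvPowerSeries (Fin 2) κ :=
  fun n => if h : n 0 + n 1 ≤ b then
    c ⟨(⟨n 0, by omega⟩, ⟨n 1, by omega⟩), h⟩ / ((n 0).factorial * (n 1).factorial : ℕ) else 0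

theorem coeff_pl {b : ℕ} (c : Ix b → κ) (n : Fin 2 →₀ ℕ) : MvPowerSeries.coeff n (pl c) =
    if h : n 0 + n 1 ≤ b then
      c ⟨(⟨n 0, by omega⟩, ⟨n 1, by omega⟩), h⟩ / ((n 0).factorial * (n 1).factorial : ℕ) else 0 := rfl

/-- multiplication by a power series on jets -/
noncomputable def mulj (ρ : MvPowerSeries (Fin 2) κ) (b i : ℕ) : (Ix b → κ) →ₗ[κ] (Ix i → κ) where
  toFun c := fun p => ((p.1.1 : ℕ).factorial * (p.1.2 : ℕ).factorial : ℕ) *
    MvPowerSeries.coeff (ex p.1.1 p.1.2) (ρ * pl c)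
  map_add' c c' := by
    have h1 : pl (c + c') = pl c + pl c' := by
      ext n
      rw [map_add, coeff_pl, coeff_pl, coeff_pl]
      split_ifs with h
      · rw [Pi.add_apply, add_div]
      · rw [add_zero]
    funext p
    rw [Pi.add_apply, h1, mul_add, map_add, mul_add]
  map_smul' a c := by
    have h1 : pl (a • c) = a • pl c := by
      ext n
      rw [MvPowerSeries.coeff_smul, coeff_pl, coeff_pl]
      split_ifs with h
      · rw [Pi.smul_apply, smul_eq_mul, mul_div_assoc]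
      · rw [mul_zero]
    funext p
    rw [RingHom.id_apply, Pi.smul_apply, h1, mul_smul_comm, MvPowerSeries.coeff_smul, smul_eq_mul]
    ring

theorem mulj_inj [CharZero κ] {ρ : MvPowerSeries (Fin 2) κ} {b : ℕ} (hρ : ρ.order = b) :
    Function.Injective (mulj ρ b (2 * b)) := by
  rw [injective_iff_map_eq_zero]
  intro c hc
  have h1 : ((2 * b + 1 : ℕ) : ℕ∞) ≤ (ρ * pl c).order := by
    refine MvPowerSeries.nat_le_order fun n hn => ?_
    rw [deg_ex] at hn
    have h2 := congrFun hc ⟨(⟨n 0, by omega⟩, ⟨n 1, by omega⟩), by show n 0 + n 1 ≤ 2 * b; omega⟩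
    have h3 : (((n 0).factorial * (n 1).factorial : ℕ) : κ) * MvPowerSeries.coeff (ex (n 0) (n 1)) (ρ * pl c) = 0 := h2
    rw [mul_eq_zero] at h3
    rw [ex_eq n]
    refine h3.resolve_left ?_
    exact_mod_cast mul_ne_zero (Nat.factorial_ne_zero _) (Nat.factorial_ne_zero _)
  rw [MvPowerSeries.order_mul, hρ] at h1
  have h2 : ((b + 1 : ℕ) : ℕ∞) ≤ (pl c).order := by
    by_cases htop : (pl c).order = ⊤
    · rw [htop]
      exact le_top
    · obtain ⟨m, hm⟩ := ENat.ne_top_iff_exists.1 htop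
      rw [← hm] at h1 ⊢
      have h3 : 2 * b + 1 ≤ b + m := by exact_mod_cast h1
      exact_mod_cast (by omega : b + 1 ≤ m)
  funext p
  have h3 : MvPowerSeries.coeff (ex p.1.1 p.1.2) (pl c) = 0 := by
    refine MvPowerSeries.coeff_of_lt_order (lt_of_lt_of_le ?_ h2)
    rw [deg_ex, ex0, ex1]
    have := p.2
    exact_mod_cast (by omega : (p.1.1 : ℕ) + p.1.2 < b + 1)
  have h4 := p.2
  rw [coeff_pl, dif_pos (by rw [ex0, ex1]; exact h4), div_eq_zero_iff] at h3
  have h5 := h3.resolve_right (by exact_mod_cast mul_ne_zero (Nat.factorial_ne_zero _) (Nat.factorial_ne_zero _))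
  have e1 : (⟨(⟨ex p.1.1 p.1.2 0, by rw [ex0]; exact p.1.1.2⟩, ⟨ex p.1.1 p.1.2 1, by rw [ex1]; exact p.1.2.2⟩), by
      show ex p.1.1 p.1.2 0 + ex p.1.1 p.1.2 1 ≤ b
      rw [ex0, ex1]; exact h4⟩ : Ix b) = p := by
    apply Subtype.ext
    apply Prod.ext
    · apply Fin.ext
      exact ex0 _ _
    · apply Fin.ext
      exact ex1 _ _
  rw [Pi.zero_apply, ← h5]
  exact (congrArg c e1).symm

end lin

variable {k K : Type} [Field k] [Field K] [Algebra k K] {X : Mod k K} {y : X.P} {d : Fin 2 → Derivation k K K}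
  {t : Fin 2 → K}

/-- the derivatives of order `≤ i` at `y` -/
noncomputable def cv (X : Mod k K) (y : X.P) (d : Fin 2 → Derivation k K K) (i : ℕ) (f : K) : Ix i → X.kap y :=
  fun p => X.rs y (wd d p.1.1 p.1.2 f)

theorem mulj_cv [CharZero k] (hJ : Jet X y d t) {b : ℕ} {ρ g : K} (hρ : ρ ∈ X.O y) (hg : g ∈ X.O y)
    (ho : (tay X y d ρ).order = b) : mulj (tay X y d ρ) b (2 * b) (cv X y d b g) = cv X y d (2 * b) (ρ * g) := by
  obtain ⟨R, hR⟩ : ∃ R, R = tay X y d g - pl (cv X y d b g) := ⟨_, rfl⟩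
  have h1 : ((b + 1 : ℕ) : ℕ∞) ≤ R.order := by
    refine MvPowerSeries.nat_le_order fun n hn => ?_
    rw [deg_ex] at hn
    rw [hR, map_sub, coeff_pl, dif_pos (by omega), coeff_tay, sub_eq_zero]
    rfl
  have h2 : tay X y d (ρ * g) = tay X y d ρ * pl (cv X y d b g) + tay X y d ρ * R := by
    rw [tay_mul hJ hρ hg, hR]
    ring
  funext p
  show (((p.1.1 : ℕ).factorial * (p.1.2 : ℕ).factorial : ℕ) : X.kap y) *
    MvPowerSeries.coeff (ex p.1.1 p.1.2) (tay X y d ρ * pl (cv X y d b g)) = X.rs y (wd d p.1.1 p.1.2 (ρ * g))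
  have h3 : MvPowerSeries.coeff (ex p.1.1 p.1.2) (tay X y d ρ * R) = 0 := by
    refine MvPowerSeries.coeff_of_lt_order ?_
    rw [MvPowerSeries.order_mul, ho, deg_ex, ex0, ex1]
    have h4 : ((2 * b : ℕ) : ℕ∞) < (b : ℕ∞) + ((b + 1 : ℕ) : ℕ∞) := by
      exact_mod_cast (by omega : 2 * b < b + (b + 1))
    refine lt_of_le_of_lt ?_ (h4.trans_le (add_le_add_right h1 _))
    exact_mod_cast p.2
  have h4 := congrArg (MvPowerSeries.coeff (ex p.1.1 p.1.2)) h2
  rw [map_add, h3, add_zero, coeff_ex] at h4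
  rw [← h4]
  have h5 : (((p.1.1 : ℕ).factorial * (p.1.2 : ℕ).factorial : ℕ) : X.kap y) ≠ 0 := by
    exact_mod_cast mul_ne_zero (Nat.factorial_ne_zero _) (Nat.factorial_ne_zero _)
  field_simp

/-- the columns of the Wronskian -/
theorem col [CharZero k] (hJ : Jet X y d t) {b : ℕ} {ρ : K} (hρ : ρ ∈ X.O y) (ho : (tay X y d ρ).order = b)
    {G₁ G₂ : Set K} (h₁ : ∀ g ∈ G₁, g ∈ X.O y) (hs₁ : Submodule.span (X.kap y) (cv X y d b '' G₁) = ⊤)
    (hs₂ : Submodule.span (X.kap y) (cv X y d (2 * b) '' G₂) = ⊤) :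
    ∃ (S : Finset (Ix (2 * b))) (φ : Ix (2 * b) → K), S.card = Fintype.card (Ix b) ∧
      (∀ l ∈ S, ∃ g ∈ G₁, φ l = ρ * g) ∧ (∀ l, l ∉ S → φ l ∈ G₂) ∧
      (Matrix.of fun p l => X.rs y (wd d p.1.1 p.1.2 (φ l)) : Matrix (Ix (2 * b)) (Ix (2 * b)) (X.kap y)).det ≠ 0 := by
  classical
  have hA : Module.finrank (X.kap y)
      (Submodule.span (X.kap y) (cv X y d (2 * b) '' {f | ∃ g ∈ G₁, f = ρ * g})) = Fintype.card (Ix b) := by
    have h1 : cv X y d (2 * b) '' {f | ∃ g ∈ G₁, f = ρ * g} =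
        mulj (tay X y d ρ) b (2 * b) '' (cv X y d b '' G₁) := by
      ext v
      constructor
      · rintro ⟨_, ⟨g, hg, rfl⟩, rfl⟩
        exact ⟨_, ⟨g, hg, rfl⟩, mulj_cv hJ hρ (h₁ g hg) ho⟩
      · rintro ⟨_, ⟨g, hg, rfl⟩, rfl⟩
        exact ⟨ρ * g, ⟨g, hg, rfl⟩, (mulj_cv hJ hρ (h₁ g hg) ho).symm⟩
    rw [h1, ← Submodule.map_span, hs₁, Submodule.map_top, LinearMap.finrank_range_of_inj (mulj_inj ho),
      Module.finrank_fintype_fun_eq_card]
  obtain ⟨S, e, hS, h1, h2, h3⟩ := ex_basis hA hs₂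
  have hex : ∀ l, ∃ f : K, cv X y d (2 * b) f = e l ∧ (l ∈ S → ∃ g ∈ G₁, f = ρ * g) ∧ (l ∉ S → f ∈ G₂) := by
    intro l
    by_cases hl : l ∈ S
    · obtain ⟨f, ⟨g, hg, rfl⟩, hf⟩ := h1 l hl
      exact ⟨_, hf, fun _ => ⟨g, hg, rfl⟩, fun h => absurd hl h⟩
    · obtain ⟨f, hf, hfe⟩ := h2 l hl
      exact ⟨f, hfe, fun h => absurd h hl, fun _ => hf⟩
  choose φ hφ using hex
  refine ⟨S, φ, hS, fun l hl => (hφ l).2.1 hl, fun l hl => (hφ l).2.2 hl, ?_⟩
  have h4 : (Matrix.of fun p l => X.rs y (wd d p.1.1 p.1.2 (φ l)) : Matrix (Ix (2 * b)) (Ix (2 * b)) (X.kap y)) =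
      Matrix.of fun p l => e l p := by
    ext p l
    rw [Matrix.of_apply, Matrix.of_apply, ← (hφ l).1]
    rfl
  rw [h4]
  exact h3

end Pool.Agent.H16.WR
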