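import Pool.Agent.H16.WR.Col
import Pool.Agent.H41.WR.Wd

/-!
# [H16 WR Jsp] THEOREM WR (MP_e49dc9_ag), (2): the jets of sections span

* `span_mon`: `a 0`, `a 1` with `det (d j (a m))` a unit at `y`: the derivatives of order `≤ i` of the monomials `a 0 ^ p a 1 ^ q`, `p + q ≤ i`,
  at `y` span (change to the pair of derivations dual to `a 0`, `a 1`, for which the Wronskian of the monomials is `∏ p! q!`).
* `span_unit`: multiplication by a unit; `span_u`: the factor `u`, killed by the derivations, is a scalar.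
* `jsp`: the sections of `B ^ n`, `n ≥ i`, if `h 0`, `h 1`, `h 2` are sections of `B`, `h 0` a unit at `y`, `a j = h (j + 1) / h 0`.
-/

set_option autoImplicit false

namespace Pool.Agent.H16.WR

open Pool.Agent.H54.RV Pool.Agent.H89.RS Pool.Agent.H41.WR

section lin

variable {κ : Type} [Field κ]

/-- columns with determinant `≠ 0` span -/
theorem span_det {ι : Type} [Fintype ι] [DecidableEq ι] {v : ι → ι → κ}
    (h : (Matrix.of fun p l => v l p : Matrix ι ι κ).det ≠ 0) : Submodule.span κ (Set.range v) = ⊤ := by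
  have h1 : IsUnit (Matrix.of fun p l => v l p : Matrix ι ι κ) := by
    rw [Matrix.isUnit_iff_isUnit_det]
    exact isUnit_iff_ne_zero.2 h
  have h2 : LinearIndependent κ v := Matrix.linearIndependent_cols_iff_isUnit.2 h1
  exact h2.span_eq_top_of_card_eq_finrank' (by rw [Module.finrank_fintype_fun_eq_card])

end lin

variable {k K : Type} [Field k] [Field K] [Algebra k K]

/-- iterates of a derivation on a monomial -/
private theorem it_mon (δ : Derivation k K K) {x c : K} (hx : δ x = 1) (hc : δ c = 0) (m n : ℕ) :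
    ((δ : K →ₗ[k] K) ^ n) (c * x ^ m) = c * (m.descFactorial n : K) * x ^ (m - n) := by
  induction n with
  | zero => simp
  | succ n ih =>
    rw [pow_succ', Module.End.mul_apply, ih]
    show δ (c * (m.descFactorial n : K) * x ^ (m - n)) = _
    have h1 : δ ((m.descFactorial n : ℕ) : K) = 0 := δ.map_natCast _
    rw [Derivation.leibniz, Derivation.leibniz, h1, hc, Derivation.leibniz_pow, hx, Nat.descFactorial_succ]
    simp only [smul_eq_mul, mul_zero, add_zero, mul_one, nsmul_eq_mul]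
    have e1 : m - (n + 1) = m - n - 1 := by omega
    rw [e1]
    push_cast
    ring

private theorem op_mon {d : Fin 2 → Derivation k K K} {a : Fin 2 → K}
    (h : ∀ j l, d j (a l) = if j = l then 1 else 0) (p₁ p₂ q₁ q₂ : ℕ) :
    op d p₁ p₂ (a 0 ^ q₁ * a 1 ^ q₂) =
      (q₁.descFactorial p₁ : K) * (q₂.descFactorial p₂ : K) * (a 0 ^ (q₁ - p₁) * a 1 ^ (q₂ - p₂)) := by
  have h00 : d 0 (a 0) = 1 := by rw [h]; rfl
  have h01 : d 0 (a 1) = 0 := by rw [h]; rfl
  have h10 : d 1 (a 0) = 0 := by rw [h]; rfl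
  have h11 : d 1 (a 1) = 1 := by rw [h]; rfl
  have hp : ∀ (j : Fin 2) (x : K) (n : ℕ), d j x = 0 → d j (x ^ n) = 0 := by
    intro j x n hx
    rw [Derivation.leibniz_pow, hx, smul_zero, smul_zero]
  show ((d 0 : K →ₗ[k] K) ^ p₁) (((d 1 : K →ₗ[k] K) ^ p₂) (a 0 ^ q₁ * a 1 ^ q₂)) = _
  rw [it_mon (d 1) h11 (hp 1 _ q₁ h10)]
  have hc : d 0 ((q₂.descFactorial p₂ : K) * a 1 ^ (q₂ - p₂)) = 0 := by
    rw [Derivation.leibniz, hp 0 _ _ h01, (d 0).map_natCast]
    simp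
  have e1 : a 0 ^ q₁ * (q₂.descFactorial p₂ : K) * a 1 ^ (q₂ - p₂) =
      ((q₂.descFactorial p₂ : K) * a 1 ^ (q₂ - p₂)) * a 0 ^ q₁ := by ring
  rw [e1, it_mon (d 0) h00 hc]
  ring

/-- the Wronskian of the monomials for the dual pair of derivations -/
private theorem wn_mon {d : Fin 2 → Derivation k K K} {a : Fin 2 → K}
    (h : ∀ j l, d j (a l) = if j = l then 1 else 0) (i : ℕ) :
    Wn d i (fun q : Ix i => a 0 ^ (q.1.1 : ℕ) * a 1 ^ (q.1.2 : ℕ)) =
      ((∏ p : Ix i, ((p.1.1 : ℕ).factorial * (p.1.2 : ℕ).factorial) : ℕ) : K) := by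
  unfold Wn
  let _ : LinearOrder (Ix i) := LinearOrder.lift' b1 b1_inj
  rw [Matrix.det_of_isUpperTriangular]
  · push_cast
    refine Finset.prod_congr rfl fun p _ => ?_
    rw [Matrix.of_apply, op_mon h, Nat.descFactorial_self, Nat.descFactorial_self, Nat.sub_self, Nat.sub_self]
    simp
  · intro p q hpq
    have h5 : b1 q < b1 p := hpq
    rw [Matrix.of_apply, op_mon h]
    by_cases h1 : (q.1.1 : ℕ) < p.1.1
    · rw [Nat.descFactorial_eq_zero_iff_lt.2 h1]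
      simp
    by_cases h2 : (q.1.2 : ℕ) < p.1.2
    · rw [Nat.descFactorial_eq_zero_iff_lt.2 h2]
      simp
    exfalso
    rcases lt_or_eq_of_le (show (p.1.1 : ℕ) + p.1.2 ≤ q.1.1 + q.1.2 by omega) with h3 | h3
    · have := b1_lt (Or.inl h3)
      omega
    · have e : p = q := Subtype.ext (Prod.ext (Fin.ext (by omega)) (Fin.ext (by omega)))
      rw [e] at h5
      exact lt_irrefl _ h5

variable {X : Mod k K} {y : X.P} {d : Fin 2 → Derivation k K K} {t : Fin 2 → K}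

/-- the Wronskian of the monomials -/
theorem wn_mono (hd : Brk d) {a : Fin 2 → K} {D : K} (hD : D = d 0 (a 0) * d 1 (a 1) - d 1 (a 0) * d 0 (a 1))
    (hD0 : D ≠ 0) (i : ℕ) :
    Wn d i (fun q : Ix i => a 0 ^ (q.1.1 : ℕ) * a 1 ^ (q.1.2 : ℕ)) =
      D ^ wi i * ((∏ p : Ix i, ((p.1.1 : ℕ).factorial * (p.1.2 : ℕ).factorial) : ℕ) : K) := by
  obtain ⟨A, hA⟩ : ∃ A : Matrix (Fin 2) (Fin 2) K, A = D⁻¹ • !![d 1 (a 1), - d 0 (a 1); - d 1 (a 0), d 0 (a 0)] :=
    ⟨_, rfl⟩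
  have hdet : A.det = D⁻¹ := by
    rw [hA, Matrix.det_fin_two]
    simp only [Matrix.smul_apply, smul_eq_mul, Matrix.of_apply, Matrix.cons_val', Matrix.cons_val_zero,
      Matrix.cons_val_one, Matrix.cons_val_fin_one]
    field_simp
    rw [hD]
    ring
  have h1 : ∀ j l, act A d j (a l) = if j = l then 1 else 0 := by
    intro j l
    show (A j 0 • d 0 + A j 1 • d 1) (a l) = _
    rw [Derivation.add_apply, Derivation.smul_apply, Derivation.smul_apply, hA]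
    simp only [Matrix.smul_apply, smul_eq_mul, Matrix.of_apply]
    have hj : j = 0 ∨ j = 1 := by omega
    have hl : l = 0 ∨ l = 1 := by omega
    rcases hj with rfl | rfl <;> rcases hl with rfl | rfl
    · simp only [Matrix.cons_val', Matrix.cons_val_zero, Matrix.cons_val_one, Matrix.cons_val_fin_one, if_true]
      field_simp
      rw [hD]
      ring
    · simp only [Matrix.cons_val', Matrix.cons_val_zero, Matrix.cons_val_one, Matrix.cons_val_fin_one]
      rw [if_neg (by decide)]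
      field_simp
      ring
    · simp only [Matrix.cons_val', Matrix.cons_val_zero, Matrix.cons_val_one, Matrix.cons_val_fin_one]
      rw [if_neg (by decide)]
      field_simp
      ring
    · simp only [Matrix.cons_val', Matrix.cons_val_zero, Matrix.cons_val_one, Matrix.cons_val_fin_one, if_true]
      field_simp
      rw [hD]
      ring
  have h2 := wn_act (i := i) hd (A := A) (by rw [hdet]; exact inv_ne_zero hD0)
    (fun q : Ix i => a 0 ^ (q.1.1 : ℕ) * a 1 ^ (q.1.2 : ℕ))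
  rw [wn_mon h1, hdet] at h2
  rw [h2, inv_pow, ← mul_assoc, mul_inv_cancel₀ (pow_ne_zero _ hD0), one_mul]

/-- multiplication by a function at `y` on the derivatives at `y` -/
theorem mulj_cv' [CharZero k] (hJ : Jet X y d t) (i : ℕ) {v g : K} (hv : v ∈ X.O y) (hg : g ∈ X.O y) :
    mulj (tay X y d v) i i (cv X y d i g) = cv X y d i (v * g) := by
  obtain ⟨R, hR⟩ : ∃ R, R = tay X y d g - pl (cv X y d i g) := ⟨_, rfl⟩
  have h1 : ((i + 1 : ℕ) : ℕ∞) ≤ R.order := by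
    refine MvPowerSeries.nat_le_order fun n hn => ?_
    rw [deg_ex] at hn
    rw [hR, map_sub, coeff_pl, dif_pos (by omega), coeff_tay, sub_eq_zero]
    rfl
  have h2 : tay X y d (v * g) = tay X y d v * pl (cv X y d i g) + tay X y d v * R := by
    rw [tay_mul hJ hv hg, hR]
    ring
  funext p
  show (((p.1.1 : ℕ).factorial * (p.1.2 : ℕ).factorial : ℕ) : X.kap y) *
    MvPowerSeries.coeff (ex p.1.1 p.1.2) (tay X y d v * pl (cv X y d i g)) = X.rs y (wd d p.1.1 p.1.2 (v * g))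
  have h3 : MvPowerSeries.coeff (ex p.1.1 p.1.2) (tay X y d v * R) = 0 := by
    refine MvPowerSeries.coeff_of_lt_order ?_
    rw [MvPowerSeries.order_mul, deg_ex, ex0, ex1]
    refine lt_of_lt_of_le ?_ (h1.trans le_add_self)
    have := p.2
    exact_mod_cast (by omega : (p.1.1 : ℕ) + p.1.2 < i + 1)
  have h4 := congrArg (MvPowerSeries.coeff (ex p.1.1 p.1.2)) h2
  rw [map_add, h3, add_zero, coeff_ex] at h4
  rw [← h4]
  have h5 : (((p.1.1 : ℕ).factorial * (p.1.2 : ℕ).factorial : ℕ) : X.kap y) ≠ 0 := by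
    exact_mod_cast mul_ne_zero (Nat.factorial_ne_zero _) (Nat.factorial_ne_zero _)
  field_simp

/-- multiplication by a unit at `y` -/
theorem span_unit [CharZero k] (hJ : Jet X y d t) (i : ℕ) {v : K} (hv : Un (X.O y) v) {G : Set K}
    (hG : ∀ g ∈ G, g ∈ X.O y) (h : Submodule.span (X.kap y) (cv X y d i '' G) = ⊤) :
    Submodule.span (X.kap y) (cv X y d i '' ((fun g => v * g) '' G)) = ⊤ := by
  have h1 : cv X y d i '' ((fun g => v * g) '' G) = mulj (tay X y d v) i i '' (cv X y d i '' G) := by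
    rw [Set.image_image, Set.image_image]
    refine Set.image_congr fun g hg => ?_
    exact (mulj_cv' hJ i hv.2.1 (hG g hg)).symm
  rw [h1, ← Submodule.map_span, h, Submodule.map_top, LinearMap.range_eq_top]
  have h2 : mulj (tay X y d v) i i ∘ₗ mulj (tay X y d v⁻¹) i i = LinearMap.id := by
    refine LinearMap.ext_on h ?_
    rintro _ ⟨g, hg, rfl⟩
    show mulj (tay X y d v) i i (mulj (tay X y d v⁻¹) i i (cv X y d i g)) = cv X y d i g
    rw [mulj_cv' hJ i hv.2.2 (hG g hg), mulj_cv' hJ i hv.2.1 (mul_mem hv.2.2 (hG g hg)), ← mul_assoc,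
      mul_inv_cancel₀ hv.1, one_mul]
  intro c
  exact ⟨mulj (tay X y d v⁻¹) i i c, LinearMap.congr_fun h2 c⟩

theorem cv_add (hJ : Jet X y d t) (i : ℕ) {f g : K} (hf : f ∈ X.O y) (hg : g ∈ X.O y) :
    cv X y d i (f + g) = cv X y d i f + cv X y d i g := by
  funext p
  show X.rs y (wd d p.1.1 p.1.2 (f + g)) = _
  rw [wd_add, rs_add y (wd_mem hJ _ _ hf) (wd_mem hJ _ _ hg)]
  rfl

theorem cv_smul (hJ : Jet X y d t) (i : ℕ) (c : k) {f : K} (hf : f ∈ X.O y) :
    cv X y d i (c • f) = algebraMap k (X.kap y) c • cv X y d i f := by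
  funext p
  show X.rs y (wd d p.1.1 p.1.2 (c • f)) = _
  rw [wd_smul, Algebra.smul_def, rs_mul y ((X.O y).algebraMap_mem c) (wd_mem hJ _ _ hf), rs_alg]
  rfl

/-- a constant of the derivations is a scalar -/
theorem cv_const (hJ : Jet X y d t) (i : ℕ) {u f : K} (hu : u ∈ X.O y) (hdu : ∀ j, d j u = 0) (hf : f ∈ X.O y)
    (n : ℕ) : cv X y d i (u ^ n * f) = X.rs y u ^ n • cv X y d i f := by
  have h1 : ∀ j, d j (u ^ n) = 0 := by
    intro j
    rw [Derivation.leibniz_pow, hdu, smul_zero, smul_zero]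
  funext p
  show X.rs y (wd d p.1.1 p.1.2 (u ^ n * f)) = _
  rw [← op_wd, op_const (h1 0) (h1 1), op_wd, rs_mul y (pow_mem hu n) (wd_mem hJ _ _ hf), rs_pow y hu]
  rfl

/-- the factor `u` -/
theorem span_u (hJ : Jet X y d t) (i : ℕ) {u : K} (hu : u ∈ X.O y) (hdu : ∀ j, d j u = 0) {G G' : Set K}
    (hG : ∀ g ∈ G, g ∈ X.O y) (hG' : ∀ g ∈ G', g ∈ Submodule.span k {x : K | ∃ (j : ℕ) (f : K), f ∈ G ∧ x = u ^ j * f})
    (h : Submodule.span (X.kap y) (cv X y d i '' G') = ⊤) :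
    Submodule.span (X.kap y) (cv X y d i '' G) = ⊤ := by
  rw [eq_top_iff, ← h, Submodule.span_le]
  rintro _ ⟨g, hg, rfl⟩
  have key : ∀ x ∈ Submodule.span k {x : K | ∃ (j : ℕ) (f : K), f ∈ G ∧ x = u ^ j * f},
      x ∈ X.O y ∧ cv X y d i x ∈ Submodule.span (X.kap y) (cv X y d i '' G) := by
    intro x hx
    induction hx using Submodule.span_induction with
    | mem x hx =>
      obtain ⟨j, f, hf, rfl⟩ := hx
      refine ⟨mul_mem (pow_mem hu j) (hG f hf), ?_⟩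
      rw [cv_const hJ i hu hdu (hG f hf)]
      exact Submodule.smul_mem _ _ (Submodule.subset_span ⟨f, hf, rfl⟩)
    | zero =>
      refine ⟨zero_mem _, ?_⟩
      have h1 := cv_smul hJ i (0 : k) (zero_mem (X.O y))
      rw [zero_smul, map_zero, zero_smul] at h1
      rw [h1]
      exact zero_mem _
    | add x z _ _ hx hz =>
      refine ⟨add_mem hx.1 hz.1, ?_⟩
      rw [cv_add hJ i hx.1 hz.1]
      exact add_mem hx.2 hz.2
    | smul c x _ hx =>
      refine ⟨(X.O y).smul_mem hx.1 c, ?_⟩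
      rw [cv_smul hJ i c hx.1]
      exact Submodule.smul_mem _ _ hx.2
  exact (key g (hG' g hg)).2

/-- the monomials in `h 0`, `h 1`, `h 2` of degree `n ≥ i`: `b j` = the normalised section `h j` -/
theorem jsp [CharZero k] (hJ : Jet X y d t) {b₀ b₁ b₂ : K} (h0 : Un (X.O y) b₀) (h1 : b₁ ∈ X.O y) (h2 : b₂ ∈ X.O y)
    (hD : Un (X.O y) (d 0 (b₁ / b₀) * d 1 (b₂ / b₀) - d 1 (b₁ / b₀) * d 0 (b₂ / b₀))) {i n : ℕ} (hn : i ≤ n) {G : Set K}
    (hG : ∀ p q r : ℕ, p + q + r = n → b₀ ^ p * b₁ ^ q * b₂ ^ r ∈ G) :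
    Submodule.span (X.kap y) (cv X y d i '' G) = ⊤ := by
  obtain ⟨a, ha⟩ : ∃ a : Fin 2 → K, a = ![b₁ / b₀, b₂ / b₀] := ⟨_, rfl⟩
  have ha0 : a 0 = b₁ / b₀ := by rw [ha]; rfl
  have ha1 : a 1 = b₂ / b₀ := by rw [ha]; rfl
  have hm0 : a 0 ∈ X.O y := by
    rw [ha0, div_eq_mul_inv]
    exact mul_mem h1 h0.2.2
  have hm1 : a 1 ∈ X.O y := by
    rw [ha1, div_eq_mul_inv]
    exact mul_mem h2 h0.2.2
  rw [← ha0, ← ha1] at hD
  have hst : ∀ j, ∀ f ∈ X.O y, d j f ∈ X.O y := hJ.st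
  -- the Wronskian
  have h3 : Wn d i (fun q : Ix i => b₀ ^ n * (a 0 ^ (q.1.1 : ℕ) * a 1 ^ (q.1.2 : ℕ))) =
      (b₀ ^ n) ^ Fintype.card (Ix i) * ((d 0 (a 0) * d 1 (a 1) - d 1 (a 0) * d 0 (a 1)) ^ wi i *
        ((∏ p : Ix i, ((p.1.1 : ℕ).factorial * (p.1.2 : ℕ).factorial) : ℕ) : K)) := by
    rw [wn_mul (brk_cm hJ.cm), wn_mono (brk_cm hJ.cm) rfl hD.1]
  have hφ : ∀ l : Ix i, b₀ ^ n * (a 0 ^ (l.1.1 : ℕ) * a 1 ^ (l.1.2 : ℕ)) ∈ X.O y := fun l =>
    mul_mem (pow_mem h0.2.1 n) (mul_mem (pow_mem hm0 _) (pow_mem hm1 _))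
  have h4 := wn_rs hst hφ
  rw [h3] at h4
  have hf : (((∏ p : Ix i, ((p.1.1 : ℕ).factorial * (p.1.2 : ℕ).factorial) : ℕ) : K)) =
      algebraMap k K ((∏ p : Ix i, ((p.1.1 : ℕ).factorial * (p.1.2 : ℕ).factorial) : ℕ) : k) := by
    rw [map_natCast]
  have hfm : (((∏ p : Ix i, ((p.1.1 : ℕ).factorial * (p.1.2 : ℕ).factorial) : ℕ) : K)) ∈ X.O y := by
    rw [hf]
    exact (X.O y).algebraMap_mem _
  have h5 : (Matrix.of fun p l : Ix i => X.rs y (wd d p.1.1 p.1.2 (b₀ ^ n * (a 0 ^ (l.1.1 : ℕ) * a 1 ^ (l.1.2 : ℕ))))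
      : Matrix (Ix i) (Ix i) (X.kap y)).det ≠ 0 := by
    rw [← h4, rs_mul y (pow_mem (pow_mem h0.2.1 n) _) (mul_mem (pow_mem hD.2.1 _) hfm),
      rs_mul y (pow_mem hD.2.1 _) hfm, rs_pow y (pow_mem h0.2.1 n), rs_pow y h0.2.1, rs_pow y hD.2.1, hf, rs_alg,
      map_natCast]
    refine mul_ne_zero (pow_ne_zero _ (pow_ne_zero _ ((rs_ne y h0.2.1).2 h0)))
      (mul_ne_zero (pow_ne_zero _ ((rs_ne y hD.2.1).2 hD)) ?_)
    rw [Nat.cast_ne_zero, Finset.prod_ne_zero_iff]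
    exact fun p _ => mul_ne_zero (Nat.factorial_ne_zero _) (Nat.factorial_ne_zero _)
  have h6 := span_det (v := fun l : Ix i => cv X y d i (b₀ ^ n * (a 0 ^ (l.1.1 : ℕ) * a 1 ^ (l.1.2 : ℕ)))) h5
  rw [eq_top_iff, ← h6]
  refine Submodule.span_mono ?_
  rintro _ ⟨l, rfl⟩
  refine ⟨_, ?_, rfl⟩
  have hl := l.2
  have e1 : b₀ ^ n * (a 0 ^ (l.1.1 : ℕ) * a 1 ^ (l.1.2 : ℕ)) =
      b₀ ^ (n - (l.1.1 + l.1.2)) * b₁ ^ (l.1.1 : ℕ) * b₂ ^ (l.1.2 : ℕ) := by
    have hb := h0.1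
    have e2 : n = (n - (l.1.1 + l.1.2)) + (l.1.1 : ℕ) + l.1.2 := by omega
    rw [ha0, ha1, div_pow, div_pow]
    conv_lhs => rw [e2]
    rw [pow_add, pow_add]
    field_simp
  rw [e1]
  exact hG _ _ _ (by omega)

end Pool.Agent.H16.WR
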