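import Mathlib

/-!
# [H16 WR LinG] THEOREM WR (MP_e49dc9_ag), (1): linear algebra of the generation by `u`

`H m` = the space of the sections of `n W + m F`, `1, u` a pencil of `F`.  `h m = dim H m` is convex in `m`
(`H m ⊓ u H m = u H (m - 1)`).  If `h` agrees with an affine function at three places `a < b < c` then `H (m + 1) = H m + u H m` for
`b ≤ m < c`, so `H c = ∑ u ^ j H b`.
-/

set_option autoImplicit false

namespace Pool.Agent.H16.WR

variable {k K : Type*} [Field k] [Field K] [Algebra k K]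

/-- the properties of the spaces of sections -/
structure Pen (H : ℤ → Submodule k K) (u : K) : Prop where
  ne : u ≠ 0
  fd : ∀ m, FiniteDimensional k (H m)
  one : ∀ m, H m ≤ H (m + 1)
  mul : ∀ m, ∀ g ∈ H m, u * g ∈ H (m + 1)
  cap : ∀ m g, g ∈ H (m + 1) → u * g ∈ H (m + 1) → g ∈ H m

variable {H : ℤ → Submodule k K} {u : K}

/-- `u H m` -/
private noncomputable def uH (H : ℤ → Submodule k K) (u : K) (m : ℤ) : Submodule k K :=
  (H m).map (LinearMap.mulLeft k u)

private theorem uH_rank (h : Pen H u) (m : ℤ) : Module.finrank k (uH H u m) = Module.finrank k (H m) :=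
  ((H m).equivMapOfInjective (LinearMap.mulLeft k u) (fun _ _ hab => mul_left_cancel₀ h.ne hab)).finrank_eq.symm

private theorem sup_le' (h : Pen H u) (m : ℤ) : H m ⊔ uH H u m ≤ H (m + 1) := by
  rw [sup_le_iff]
  refine ⟨h.one m, ?_⟩
  rintro _ ⟨g, hg, rfl⟩
  exact h.mul m g hg

private theorem inf_eq (h : Pen H u) (m : ℤ) : H (m + 1) ⊓ uH H u (m + 1) = uH H u m := by
  apply le_antisymm
  · rintro _ ⟨h1, g, hg, rfl⟩
    exact ⟨g, h.cap m g hg h1, rfl⟩
  · rintro _ ⟨g, hg, rfl⟩
    exact ⟨h.mul m g hg, g, h.one m hg, rfl⟩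

private theorem rank_sup (h : Pen H u) (m : ℤ) :
    Module.finrank k ↥(H (m + 1) ⊔ uH H u (m + 1)) + Module.finrank k (H m) = 2 * Module.finrank k (H (m + 1)) := by
  have := h.fd (m + 1)
  have h1 : FiniteDimensional k (uH H u (m + 1)) := by
    unfold uH
    infer_instance
  have h2 := Submodule.finrank_sup_add_finrank_inf_eq (H (m + 1)) (uH H u (m + 1))
  rw [inf_eq h, uH_rank h, uH_rank h] at h2
  omega

/-- convexity -/
theorem pen_conv (h : Pen H u) (m : ℤ) :
    2 * (Module.finrank k (H (m + 1)) : ℤ) ≤ Module.finrank k (H (m + 1 + 1)) + Module.finrank k (H m) := by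
  have := h.fd (m + 1 + 1)
  have h1 := rank_sup h m
  have h2 := Submodule.finrank_mono (sup_le' h (m + 1))
  omega

/-- if the second difference is zero then `H (m + 2) = H (m + 1) + u H (m + 1)` -/
private theorem gen_step (h : Pen H u) (m : ℤ)
    (he : (Module.finrank k (H (m + 1 + 1)) : ℤ) + Module.finrank k (H m) ≤ 2 * Module.finrank k (H (m + 1))) :
    ∀ g ∈ H (m + 1 + 1), ∃ g₀ ∈ H (m + 1), ∃ g₁ ∈ H (m + 1), g = g₀ + u * g₁ := by
  have := h.fd (m + 1 + 1)
  have h1 := rank_sup h m
  have h2 : H (m + 1) ⊔ uH H u (m + 1) = H (m + 1 + 1) := by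
    apply Submodule.eq_of_le_of_finrank_le (sup_le' h (m + 1))
    omega
  intro g hg
  rw [← h2, Submodule.mem_sup] at hg
  obtain ⟨g₀, h3, _, ⟨g₁, h4, rfl⟩, rfl⟩ := hg
  exact ⟨g₀, h3, g₁, h4, rfl⟩

/-- a convex sequence of integers which agrees with an affine function at `a < b < c` is affine on `[b - 1, c]` -/
private theorem conv_aff {f : ℤ → ℤ} (hf : ∀ m, 2 * f (m + 1) ≤ f (m + 1 + 1) + f m) {a b c : ℤ} (hab : a < b)
    (hbc : b < c) {α β : ℝ} (ha : (f a : ℝ) = α + β * a) (hb : (f b : ℝ) = α + β * b)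
    (hc : (f c : ℝ) = α + β * c) : ∀ m, b - 1 ≤ m → m + 1 + 1 ≤ c → f (m + 1 + 1) + f m ≤ 2 * f (m + 1) := by
  have hmono : ∀ m, f (m + 1) - f m ≤ f (m + 1 + 1) - f (m + 1) := fun m => by have := hf m; omega
  have hmono2 : ∀ (n : ℕ) m, f (m + 1) - f m ≤ f (m + n + 1) - f (m + n) := by
    intro n
    induction n with
    | zero => intro m; simp
    | succ n ih =>
      intro m
      refine (ih m).trans ?_
      have h1 := hmono (m + n)
      have e1 : m + ((n + 1 : ℕ) : ℤ) = m + n + 1 := by push_cast; ring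
      rw [e1]
      exact h1
  have hmono3 : ∀ m m', m ≤ m' → f (m + 1) - f m ≤ f (m' + 1) - f m' := by
    intro m m' hm
    obtain ⟨n, hn⟩ := Int.eq_ofNat_of_zero_le (sub_nonneg.2 hm)
    have h1 := hmono2 n m
    have e1 : m + (n : ℤ) = m' := by omega
    rwa [e1] at h1
  -- the difference over an interval
  have up : ∀ (n : ℕ) (m q : ℤ), (∀ j : ℤ, m ≤ j → j < m + n → f (j + 1) - f j ≤ q) → f (m + n) - f m ≤ n * q := by
    intro n
    induction n with
    | zero => intro m q _; simp
    | succ n ih =>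
      intro m q hq
      have h1 := ih m q fun j hj hj' => hq j hj (by push_cast; omega)
      have h2 := hq (m + n) (by omega) (by push_cast; omega)
      have e1 : m + ((n + 1 : ℕ) : ℤ) = m + n + 1 := by push_cast; ring
      rw [e1]
      push_cast
      linarith
  have lo : ∀ (n : ℕ) (m q : ℤ), (∀ j : ℤ, m ≤ j → j < m + n → q ≤ f (j + 1) - f j) → n * q ≤ f (m + n) - f m := by
    intro n
    induction n with
    | zero => intro m q _; simp
    | succ n ih =>
      intro m q hq
      have h1 := ih m q fun j hj hj' => hq j hj (by push_cast; omega)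
      have h2 := hq (m + n) (by omega) (by push_cast; omega)
      have e1 : m + ((n + 1 : ℕ) : ℤ) = m + n + 1 := by push_cast; ring
      rw [e1]
      push_cast
      linarith
  obtain ⟨p, hp⟩ := Int.eq_ofNat_of_zero_le (sub_nonneg.2 hab.le)
  obtain ⟨q, hq⟩ := Int.eq_ofNat_of_zero_le (sub_nonneg.2 hbc.le)
  have hp0 : (0 : ℝ) < p := by
    have : (0 : ℤ) < p := by omega
    exact_mod_cast this
  have eb : a + (p : ℤ) = b := by omega
  have ec : b + (q : ℤ) = c := by omega
  -- the last difference before `b` is at least `β`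
  obtain ⟨D, hD⟩ : ∃ D, D = f (b - 1 + 1) - f (b - 1) := ⟨_, rfl⟩
  have h1 : β ≤ D := by
    have h2 := up p a D fun j hj hj' => by
      rw [hD]
      exact hmono3 _ _ (by omega)
    rw [eb] at h2
    have h3 : ((f b - f a : ℤ) : ℝ) ≤ ((p * D : ℤ) : ℝ) := by exact_mod_cast h2
    push_cast at h3
    rw [ha, hb] at h3
    have h4 : (b : ℝ) = a + p := by exact_mod_cast eb.symm
    rw [h4] at h3
    have h5 : β * p ≤ D * p := by linarith
    exact le_of_mul_le_mul_right h5 hp0
  -- all differences on `[b - 1, c)` are at least `D`; their sum is `β (c - b)`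
  intro m hm hm'
  have h2 : D ≤ f (m + 1) - f m := by
    rw [hD]
    exact hmono3 _ _ hm
  have h3 : f (m + 1 + 1) - f (m + 1) ≤ D := by
    by_contra hcon
    push Not at hcon
    -- then the sum over `[b, c)` is larger
    have hj : b ≤ m + 1 := by omega
    obtain ⟨n₁, hn₁⟩ := Int.eq_ofNat_of_zero_le (sub_nonneg.2 hj)
    obtain ⟨n₂, hn₂⟩ := Int.eq_ofNat_of_zero_le (sub_nonneg.2 hm')
    have h4 := lo n₁ b D fun j hj _ => by
      rw [hD]
      exact hmono3 _ _ (by omega)
    have h5 := lo n₂ (m + 1 + 1) D fun j hj _ => by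
      rw [hD]
      exact hmono3 _ _ (by omega)
    have e1 : b + (n₁ : ℤ) = m + 1 := by omega
    have e2 : m + 1 + 1 + (n₂ : ℤ) = c := by omega
    rw [e1] at h4
    rw [e2] at h5
    have h6 : (n₁ + n₂ + 1) * D < f c - f b := by nlinarith
    have h7 : ((((n₁ + n₂ + 1) * D : ℤ)) : ℝ) < ((f c - f b : ℤ) : ℝ) := by exact_mod_cast h6
    push_cast at h7
    rw [hc, hb] at h7
    have h8 : (c : ℝ) = b + (n₁ + n₂ + 1) := by
      have : c = b + (n₁ + n₂ + 1) := by omega
      exact_mod_cast this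
    rw [h8] at h7
    have h9 : (0 : ℝ) ≤ n₁ + n₂ + 1 := by positivity
    nlinarith
  omega

/-- generation by `u` -/
theorem pen_gen (h : Pen H u) {a b c : ℤ} (hab : a < b) (hbc : b < c) {α β : ℝ}
    (ha : (Module.finrank k (H a) : ℝ) = α + β * a) (hb : (Module.finrank k (H b) : ℝ) = α + β * b)
    (hc : (Module.finrank k (H c) : ℝ) = α + β * c) : ∀ g ∈ H c,
      g ∈ Submodule.span k {x : K | ∃ (j : ℕ) (f : K), f ∈ H b ∧ x = u ^ j * f} := by
  have key := conv_aff (f := fun m => (Module.finrank k (H m) : ℤ)) (pen_conv h) hab hbc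
    (by simpa using ha) (by simpa using hb) (by simpa using hc)
  have main : ∀ (n : ℕ), b + n ≤ c → ∀ g ∈ H (b + n),
      g ∈ Submodule.span k {x : K | ∃ (j : ℕ) (f : K), f ∈ H b ∧ x = u ^ j * f} := by
    intro n
    induction n with
    | zero =>
      intro _ g hg
      refine Submodule.subset_span ⟨0, g, ?_, by rw [pow_zero, one_mul]⟩
      simpa using hg
    | succ n ih =>
      intro hn g hg
      have e1 : b + ((n + 1 : ℕ) : ℤ) = (b + n - 1) + 1 + 1 := by push_cast; ring
      have e2 : (b + n - 1) + 1 = b + (n : ℤ) := by ring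
      rw [e1] at hg hn
      obtain ⟨g₀, h0, g₁, h1, rfl⟩ := gen_step h _ (key (b + n - 1) (by omega) hn) g hg
      rw [e2] at h0 h1
      have hn' : b + (n : ℤ) ≤ c := by omega
      refine add_mem (ih hn' g₀ h0) ?_
      have h2 := ih hn' g₁ h1
      have h3 : ∀ x ∈ Submodule.span k {x : K | ∃ (j : ℕ) (f : K), f ∈ H b ∧ x = u ^ j * f},
          u * x ∈ Submodule.span k {x : K | ∃ (j : ℕ) (f : K), f ∈ H b ∧ x = u ^ j * f} := by
        intro x hx
        induction hx using Submodule.span_induction with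
        | mem x hx =>
          obtain ⟨j, f, hf, rfl⟩ := hx
          exact Submodule.subset_span ⟨j + 1, f, hf, by rw [pow_succ]; ring⟩
        | zero => rw [mul_zero]; exact zero_mem _
        | add x y _ _ hx hy => rw [mul_add]; exact add_mem hx hy
        | smul r x _ hx => rw [mul_smul_comm]; exact Submodule.smul_mem _ r hx
      exact h3 g₁ h2
  obtain ⟨q, hq⟩ := Int.eq_ofNat_of_zero_le (sub_nonneg.2 hbc.le)
  have ec : b + (q : ℤ) = c := by omega
  intro g hg
  exact main q (by omega) g (by rw [ec]; exact hg)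

end Pool.Agent.H16.WR
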