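import Mathlib

/-!
# [H16 WR Num] THEOREM WR (MP_e49dc9_ag), (4): numbers

`card_ix`, `sum_ix`: the number of the `α` with `|α| ≤ i` is `(i + 1)(i + 2) / 2`, the sum of the `α₁` is `i (i + 1)(i + 2) / 6`.
`wr_num`: `0 ≤ M N dB - Mb a (T₁ - u) f + 2 w f`, `dB < 2 f`, `b = a μ`, `i = 2 b`, `N = i + a` imply `T₁ - u ≤ 64 μ / 3 + 8`.
-/

set_option autoImplicit false

namespace Pool.Agent.H16.WR

/-- the pairs `(a, b)` with `a + b ≤ i` -/
abbrev Ix (i : ℕ) : Type := {p : Fin (i + 1) × Fin (i + 1) // (p.1 : ℕ) + p.2 ≤ i}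

private theorem sum_sub {M : Type*} [AddCommMonoid M] (i : ℕ) (g : ℕ → ℕ → M) :
    ∑ p : Ix i, g p.1.1 p.1.2 = ∑ a ∈ Finset.range (i + 1), ∑ b ∈ Finset.range (i + 1 - a), g a b := by
  classical
  have h1 : ∑ p : Ix i, g p.1.1 p.1.2 =
      ∑ p : Fin (i + 1) × Fin (i + 1), if (p.1 : ℕ) + p.2 ≤ i then g p.1 p.2 else 0 := by
    rw [← Finset.sum_filter]
    exact Finset.sum_subtype (f := fun p : Fin (i + 1) × Fin (i + 1) => g p.1 p.2) _ (fun x => by simp) |>.symm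
  rw [h1, Fintype.sum_prod_type, Finset.sum_range]
  refine Finset.sum_congr rfl fun a _ => ?_
  have h2 : ∑ b : Fin (i + 1), (if ((a, b).1 : ℕ) + ((a, b).2 : Fin (i + 1)) ≤ i then g (a, b).1 (a, b).2 else 0) =
      ∑ b ∈ Finset.range (i + 1), if (a : ℕ) + b ≤ i then g a b else 0 := by
    rw [Finset.sum_range]
  rw [h2, ← Finset.sum_filter]
  refine Finset.sum_congr ?_ fun _ _ => rfl
  ext b
  simp only [Finset.mem_filter, Finset.mem_range]
  have := a.2
  omega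

private theorem card_aux (i : ℕ) : 2 * ∑ a ∈ Finset.range (i + 1), (i + 1 - a) = (i + 1) * (i + 2) := by
  have h1 : ∑ a ∈ Finset.range (i + 1), (i + 1 - a) = ∑ a ∈ Finset.range (i + 1), (a + 1) := by
    rw [← Finset.sum_range_reflect]
    refine Finset.sum_congr rfl fun a ha => ?_
    rw [Finset.mem_range] at ha
    omega
  rw [h1]
  clear h1
  induction i with
  | zero => simp
  | succ i ih =>
    rw [Finset.sum_range_succ, mul_add, ih]
    ring

theorem card_ix (i : ℕ) : 2 * Fintype.card (Ix i) = (i + 1) * (i + 2) := by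
  rw [← card_aux i]
  congr 1
  rw [Fintype.card_eq_sum_ones]
  refine (sum_sub i fun _ _ => 1).trans ?_
  refine Finset.sum_congr rfl fun a _ => ?_
  rw [Finset.sum_const, Finset.card_range, smul_eq_mul, mul_one]

private theorem sum_aux (i : ℕ) : 6 * ∑ a ∈ Finset.range (i + 1), (i + 1 - a) * a = i * (i + 1) * (i + 2) := by
  induction i with
  | zero => simp
  | succ i ih =>
    have h1 : ∑ a ∈ Finset.range (i + 1 + 1), (i + 1 + 1 - a) * a =
        ∑ a ∈ Finset.range (i + 1), (i + 1 - a) * a + ∑ a ∈ Finset.range (i + 1 + 1), a := by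
      rw [Finset.sum_range_succ, Finset.sum_range_succ (fun a => a), ← add_assoc, ← Finset.sum_add_distrib]
      congr 1
      · refine Finset.sum_congr rfl fun a ha => ?_
        rw [Finset.mem_range] at ha
        have e1 : i + 1 + 1 - a = (i + 1 - a) + 1 := by omega
        rw [e1]
        ring
      · have e1 : i + 1 + 1 - (i + 1) = 1 := by omega
        rw [e1, one_mul]
    have h2 := Finset.sum_range_id_mul_two (i + 1 + 1)
    have e1 : i + 1 + 1 - 1 = i + 1 := by omega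
    rw [e1] at h2
    rw [h1, mul_add, ih]
    nlinarith

theorem sum_ix (i : ℕ) : 6 * ∑ p : Ix i, (p.1.1 : ℕ) = i * (i + 1) * (i + 2) := by
  rw [← sum_aux i]
  congr 1
  refine (sum_sub i fun a _ => a).trans ?_
  refine Finset.sum_congr rfl fun a _ => ?_
  rw [Finset.sum_const, Finset.card_range, smul_eq_mul]

/-- the final inequality -/
theorem wr_num {a μ : ℕ} (ha : 1 ≤ a) {T₁ u f dB M Mb w : ℝ} (hf : 0 < f) (hdB : dB < 2 * f)
    (hM : 2 * M = ((2 * (a * μ) : ℕ) + 1) * ((2 * (a * μ) : ℕ) + 2))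
    (hMb : 2 * Mb = ((a * μ : ℕ) + 1) * ((a * μ : ℕ) + 2))
    (hw : 6 * w = (2 * (a * μ) : ℕ) * ((2 * (a * μ) : ℕ) + 1) * ((2 * (a * μ) : ℕ) + 2))
    (h : 0 ≤ M * ((2 * (a * μ) + a : ℕ) * dB) - Mb * (a * (T₁ - u) * f) + 2 * w * f) :
    T₁ - u ≤ 64 * μ / 3 + 8 := by
  have ha' : (1 : ℝ) ≤ a := by exact_mod_cast ha
  have hμ : (0 : ℝ) ≤ μ := Nat.cast_nonneg _
  push_cast at hM hMb hw h
  obtain ⟨b, hb⟩ : ∃ b : ℝ, b = a * μ := ⟨_, rfl⟩
  have hb0 : 0 ≤ b := by rw [hb]; positivity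
  rw [← hb] at hM hMb hw h
  obtain ⟨s, hs⟩ : ∃ s, s = T₁ - u := ⟨_, rfl⟩
  rw [← hs] at h ⊢
  have hM0 : 0 < M := by nlinarith
  have h1 : M * ((2 * b + a) * dB) ≤ M * ((2 * b + a) * (2 * f)) := by
    refine mul_le_mul_of_nonneg_left ?_ hM0.le
    exact mul_le_mul_of_nonneg_left hdB.le (by positivity)
  have h2 : 0 ≤ (2 * M * (2 * b + a) - Mb * (a * s) + 2 * w) * f := by linarith
  have h3 : 0 ≤ 2 * M * (2 * b + a) - Mb * (a * s) + 2 * w := nonneg_of_mul_nonneg_left h2 hf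
  -- insert the values
  have h4 : (b + 1) * (b + 2) / 2 * (a * s) ≤
      (2 * b + 1) * (2 * b + 2) * (2 * b + a) + 2 * (2 * b * (2 * b + 1) * (2 * b + 2) / 6) := by
    have e1 : Mb = (b + 1) * (b + 2) / 2 := by linarith
    have e2 : 2 * M = (2 * b + 1) * (2 * b + 2) := hM
    have e3 : w = 2 * b * (2 * b + 1) * (2 * b + 2) / 6 := by linarith
    rw [e1, e2, e3] at h3
    linarith
  have h5 : (b + 2) * (a * s) ≤ 4 * (2 * b + 1) * (2 * b + a) + 8 * b * (2 * b + 1) / 3 := by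
    have h6 : (b + 1) * ((b + 2) * (a * s)) ≤ (b + 1) * (4 * (2 * b + 1) * (2 * b + a) + 8 * b * (2 * b + 1) / 3) := by
      linarith
    exact le_of_mul_le_mul_left h6 (by linarith)
  have h6 : 4 * (2 * b + 1) * (2 * b + a) + 8 * b * (2 * b + 1) / 3 ≤
      (b + 2) * (64 / 3 * b + 8 * a) := by nlinarith
  have h7 : a * s ≤ 64 / 3 * b + 8 * a :=
    le_of_mul_le_mul_left (h5.trans h6) (by linarith)
  have h8 : a * s ≤ a * (64 * μ / 3 + 8) := by
    rw [hb] at h7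
    linarith
  exact le_of_mul_le_mul_left h8 (by linarith)

end Pool.Agent.H16.WR
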