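import Pool.Agent.H89.RS.Def
import Pool.Agent.H16.WR.Num

/-!
# [H16 WR Tay] THEOREM WR (MP_e49dc9_ag): the Taylor series at a curve

`tay X y d f` = the power series in two variables over the residue field of `y` with the coefficients
`rs y (d 0 ^ a d 1 ^ b f) / (a! b!)`.  It is multiplicative on the local ring at `y` (`tay_mul`).  Its order is the order of vanishing
at `y` (`Vn`); orders add.
-/

set_option autoImplicit false

namespace Pool.Agent.H16.WR

open Pool.Agent.H54.RV Pool.Agent.H89.RS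

variable {k K : Type} [Field k] [Field K] [Algebra k K] {X : Mod k K}

instance kapChar [CharZero k] (y : X.P) : CharZero (X.kap y) :=
  charZero_of_injective_algebraMap (algebraMap k (X.kap y)).injective

/-- the Taylor series -/
noncomputable def tay (X : Mod k K) (y : X.P) (d : Fin 2 → Derivation k K K) (f : K) :
    MvPowerSeries (Fin 2) (X.kap y) :=
  fun n => X.rs y (wd d (n 0) (n 1) f) / ((n 0).factorial * (n 1).factorial : ℕ)

theorem coeff_tay (y : X.P) (d : Fin 2 → Derivation k K K) (f : K) (n : Fin 2 →₀ ℕ) :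
    MvPowerSeries.coeff n (tay X y d f) =
      X.rs y (wd d (n 0) (n 1) f) / ((n 0).factorial * (n 1).factorial : ℕ) := rfl

theorem wd1 (d : Fin 2 → Derivation k K K) (a b : ℕ) (f : K) : wd d a (b + 1) f = wd d a b (d 1 f) := by
  unfold wd
  rw [Function.iterate_succ_apply]

theorem wd0 {y : X.P} {d : Fin 2 → Derivation k K K} {t : Fin 2 → K} (hJ : Jet X y d t) (a b : ℕ) (f : K) :
    wd d (a + 1) b f = wd d a b (d 0 f) := by
  have h : Function.Commute (⇑(d 0)) (⇑(d 1)) := hJ.cm
  have h1 : d 0 ((⇑(d 1))^[b] f) = (⇑(d 1))^[b] (d 0 f) := h.iterate_right b f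
  unfold wd
  rw [Function.iterate_succ_apply, h1]

theorem tay_add {y : X.P} {d : Fin 2 → Derivation k K K} {t : Fin 2 → K} (hJ : Jet X y d t) {f g : K}
    (hf : f ∈ X.O y) (hg : g ∈ X.O y) : tay X y d (f + g) = tay X y d f + tay X y d g := by
  ext n
  rw [map_add, coeff_tay, coeff_tay, coeff_tay, wd_add, rs_add y (wd_mem hJ _ _ hf) (wd_mem hJ _ _ hg), add_div]

theorem pderiv_tay [CharZero k] {y : X.P} {d : Fin 2 → Derivation k K K} {t : Fin 2 → K} (hJ : Jet X y d t) (f : K)
    (i : Fin 2) : MvPowerSeries.pderiv (X.kap y) i (tay X y d f) = tay X y d (d i f) := by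
  ext n
  rw [MvPowerSeries.coeff_pderiv, coeff_tay, coeff_tay]
  have h1 : ((n 0).factorial : X.kap y) ≠ 0 := Nat.cast_ne_zero.2 (Nat.factorial_ne_zero _)
  have h2 : ((n 1).factorial : X.kap y) ≠ 0 := Nat.cast_ne_zero.2 (Nat.factorial_ne_zero _)
  have hi : i = 0 ∨ i = 1 := by omega
  rcases hi with rfl | rfl
  · have e0 : (n + Finsupp.single (0 : Fin 2) 1 : Fin 2 →₀ ℕ) 0 = n 0 + 1 := by simp
    have e1 : (n + Finsupp.single (0 : Fin 2) 1 : Fin 2 →₀ ℕ) 1 = n 1 := by simp
    rw [e0, e1, wd0 hJ, Nat.factorial_succ]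
    have h3 : ((n 0 : ℕ) : X.kap y) + 1 ≠ 0 := by exact_mod_cast Nat.succ_ne_zero (n 0)
    push_cast
    field_simp
  · have e0 : (n + Finsupp.single (1 : Fin 2) 1 : Fin 2 →₀ ℕ) 0 = n 0 := by simp
    have e1 : (n + Finsupp.single (1 : Fin 2) 1 : Fin 2 →₀ ℕ) 1 = n 1 + 1 := by simp
    rw [e0, e1, wd1, Nat.factorial_succ]
    have h3 : ((n 1 : ℕ) : X.kap y) + 1 ≠ 0 := by exact_mod_cast Nat.succ_ne_zero (n 1)
    push_cast
    field_simp

/-- the Taylor series is multiplicative -/
theorem tay_mul [CharZero k] {y : X.P} {d : Fin 2 → Derivation k K K} {t : Fin 2 → K} (hJ : Jet X y d t) {f g : K}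
    (hf : f ∈ X.O y) (hg : g ∈ X.O y) : tay X y d (f * g) = tay X y d f * tay X y d g := by
  have main : ∀ (N : ℕ) (n : Fin 2 →₀ ℕ), n 0 + n 1 = N → ∀ f ∈ X.O y, ∀ g ∈ X.O y,
      MvPowerSeries.coeff n (tay X y d (f * g)) = MvPowerSeries.coeff n (tay X y d f * tay X y d g) := by
    intro N
    induction N with
    | zero =>
      intro n hn f hf g hg
      have h0 : n = 0 := by
        ext i
        have hi : i = 0 ∨ i = 1 := by omega
        rcases hi with rfl | rfl
        · simp only [Finsupp.coe_zero, Pi.zero_apply]; omega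
        · simp only [Finsupp.coe_zero, Pi.zero_apply]; omega
      subst h0
      have e1 : ∀ h : K, MvPowerSeries.constantCoeff (tay X y d h) = X.rs y h := by
        intro h
        rw [← MvPowerSeries.coeff_zero_eq_constantCoeff_apply, coeff_tay]
        simp [wd]
      rw [MvPowerSeries.coeff_zero_eq_constantCoeff_apply, MvPowerSeries.coeff_zero_eq_constantCoeff_apply, map_mul,
        e1, e1, e1, rs_mul y hf hg]
    | succ N ih =>
      intro n hn f hf g hg
      obtain ⟨i, m, rfl⟩ : ∃ (i : Fin 2) (m : Fin 2 →₀ ℕ), n = m + Finsupp.single i 1 := by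
        by_cases h : 0 < n 0
        · refine ⟨0, n - Finsupp.single 0 1, ?_⟩
          rw [tsub_add_cancel_of_le]
          rw [Finsupp.single_le_iff]
          omega
        · refine ⟨1, n - Finsupp.single 1 1, ?_⟩
          rw [tsub_add_cancel_of_le]
          rw [Finsupp.single_le_iff]
          omega
      have hm : m 0 + m 1 = N := by
        have hi : i = 0 ∨ i = 1 := by omega
        rcases hi with rfl | rfl
        · simp at hn; omega
        · simp at hn; omega
      have h3 : ((m i : ℕ) : X.kap y) + 1 ≠ 0 := by exact_mod_cast Nat.succ_ne_zero (m i)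
      apply mul_right_cancel₀ h3
      rw [← MvPowerSeries.coeff_pderiv, ← MvPowerSeries.coeff_pderiv, pderiv_tay hJ, Derivation.leibniz,
        Derivation.leibniz, pderiv_tay hJ, pderiv_tay hJ]
      simp only [smul_eq_mul]
      rw [tay_add hJ (mul_mem hf (hJ.st i g hg)) (mul_mem hg (hJ.st i f hf)), map_add, map_add,
        ih m hm f hf (d i g) (hJ.st i g hg), ih m hm g hg (d i f) (hJ.st i f hf)]
  ext n
  exact main _ n rfl f hf g hg

theorem tay_pow [CharZero k] {y : X.P} {d : Fin 2 → Derivation k K K} {t : Fin 2 → K} (hJ : Jet X y d t) {f : K}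
    (hf : f ∈ X.O y) (n : ℕ) : tay X y d (f ^ n) = tay X y d f ^ n := by
  induction n with
  | zero =>
    rw [pow_zero, pow_zero]
    ext n
    have h1 : MvPowerSeries.coeff n (tay X y d (1 : K)) * MvPowerSeries.constantCoeff (1 : MvPowerSeries (Fin 2) (X.kap y)) =
        MvPowerSeries.coeff n (tay X y d (1 : K)) := by
      rw [map_one, mul_one]
    have h2 := tay_mul hJ (X.O y).one_mem (X.O y).one_mem
    rw [mul_one] at h2
    have h3 : tay X y d (1 : K) ≠ 0 := by
      intro h4
      have h5 : MvPowerSeries.coeff 0 (tay X y d (1 : K)) = 1 := by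
        rw [coeff_tay]
        simp [wd, rs_one]
      rw [h4, map_zero] at h5
      exact zero_ne_one h5
    have h4 : tay X y d (1 : K) = 1 := mul_left_cancel₀ h3 (by rw [mul_one]; exact h2.symm)
    rw [h4]
  | succ n ih => rw [pow_succ, tay_mul hJ (pow_mem hf n) hf, ih, pow_succ]

/-- the exponent `(a, b)` -/
noncomputable def ex (a b : ℕ) : Fin 2 →₀ ℕ := Finsupp.single 0 a + Finsupp.single 1 b

theorem ex0 (a b : ℕ) : ex a b 0 = a := by simp [ex]

theorem ex1 (a b : ℕ) : ex a b 1 = b := by simp [ex]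

theorem ex_eq (n : Fin 2 →₀ ℕ) : n = ex (n 0) (n 1) := by
  ext i
  have hi : i = 0 ∨ i = 1 := by omega
  rcases hi with rfl | rfl
  · rw [ex0]
  · rw [ex1]

theorem deg_ex (n : Fin 2 →₀ ℕ) : Finsupp.degree n = n 0 + n 1 := by
  rw [Finsupp.degree_eq_sum, Fin.sum_univ_two]

theorem coeff_ex (y : X.P) (d : Fin 2 → Derivation k K K) (f : K) (a b : ℕ) :
    MvPowerSeries.coeff (ex a b) (tay X y d f) = X.rs y (wd d a b f) / (a.factorial * b.factorial : ℕ) := by
  rw [coeff_tay, ex0, ex1]

theorem coeff_ex_zero [CharZero k] {y : X.P} {d : Fin 2 → Derivation k K K} {f : K} {a b : ℕ} :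
    MvPowerSeries.coeff (ex a b) (tay X y d f) = 0 ↔ X.rs y (wd d a b f) = 0 := by
  rw [coeff_ex, div_eq_zero_iff]
  refine or_iff_left ?_
  exact_mod_cast mul_ne_zero (Nat.factorial_ne_zero a) (Nat.factorial_ne_zero b)

theorem vn_iff [CharZero k] {y : X.P} {d : Fin 2 → Derivation k K K} {f : K} (hf : f ∈ X.O y) (n : ℕ) :
    Vn X y d n f ↔ (n : ℕ∞) ≤ (tay X y d f).order := by
  constructor
  · rintro ⟨_, h⟩
    refine MvPowerSeries.nat_le_order fun m hm => ?_
    rw [deg_ex] at hm
    rw [ex_eq m, coeff_ex_zero]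
    exact h _ _ hm
  · intro h
    refine ⟨hf, fun a b hab => ?_⟩
    rw [← coeff_ex_zero]
    refine MvPowerSeries.coeff_of_lt_order (lt_of_lt_of_le ?_ h)
    rw [deg_ex, ex0, ex1]
    exact_mod_cast hab

/-- the order of vanishing -/
theorem ord_pow [CharZero k] {y : X.P} {d : Fin 2 → Derivation k K K} {t : Fin 2 → K} (hJ : Jet X y d t) {f : K}
    (hf : f ∈ X.O y) (n : ℕ) : (tay X y d (f ^ n)).order = n * (tay X y d f).order := by
  rw [tay_pow hJ hf]
  induction n with
  | zero =>
    rw [pow_zero, Nat.cast_zero, zero_mul]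
    have h1 : (1 : MvPowerSeries (Fin 2) (X.kap y)).order + (1 : MvPowerSeries (Fin 2) (X.kap y)).order =
        (1 : MvPowerSeries (Fin 2) (X.kap y)).order := by
      rw [← MvPowerSeries.order_mul, mul_one]
    have h2 : (1 : MvPowerSeries (Fin 2) (X.kap y)).order ≤ 0 := by
      have := MvPowerSeries.order_le (f := (1 : MvPowerSeries (Fin 2) (X.kap y))) (d := 0) (by simp)
      simpa using this
    exact le_antisymm h2 bot_le
  | succ n ih =>
    rw [pow_succ, MvPowerSeries.order_mul, ih]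
    push_cast
    ring

end Pool.Agent.H16.WR
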